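import Mathlib
import Pool.Agent.TH572.FU.Rs
import Pool.Agent.W684.FM.Ambient

/-!
# Countable Fréchet-Urysohn groups of sequence-rank `ω₁`: independence

Let `G` be a countable group, `S` a set of at most `κ` sequences in `G` such that `τ_S` exists and
is not discrete, where Martin's axiom for `σ`-centred preordered sets and `κ` dense sets holds
(that is, `κ < 𝔭`). Then `(G, τ_S)` is not a Fréchet-Urysohn space. So `𝔭 ≤ r_s(G, τ)` for all
countable non-discrete Fréchet-Urysohn groups, and the existence of a countable Fréchet-Urysohn
group with `r_s(G, τ) = ω₁` is independent: it exists under the continuum hypothesis and it does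
not exist under Martin's axiom for `ℵ₁` dense sets (which can be forced).

Sketch. Suppose that `τ_S` is a Fréchet-Urysohn topology; assume that `S` is closed under
conjugation and inversion.

* Captured sequences: for every `τ_S`-convergent sequence `c_n → 1` there are a finite set
  `T ⊆ S`, a finite set `F ⊆ G` and `m`, such that almost all `c_n` are products of `m` members of
  the set `B(F, T)` that consists of `1`, the members of `F` and the terms of the sequences in `T`.
  Otherwise the axiom gives a weight function `w : G → [0, 1]` which tends to `0` along all the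
  sequences in `S`, such that for infinitely many `n` in every factorization of `c_n` the sum of
  the weights is at least `1`; but `w` defines a coarser group topology in which `c_n` does not
  converge to `1`.
* Let `x_n → 1`, `x_n ≠ 1`, and let `X` be the set of all `x_n` and of `1`. The `n`-th derived set
  of `X ^ n` contains `1`, and the `n`-th derived set of `B(F, T) ^ m` is empty for `m < n`. By the
  axiom there are sets `Z_n ⊆ X ^ n` converging to `1` such that `x_n Z_n` meets `B(F, T) ^ m` in
  a finite set, for all `F`, `T` and all `n > m`, and these finite sets are empty for almost all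
  `n`. So `1` is in the closure of the union of the sets `x_n Z_n`, but no sequence in this union
  converges to `1`.

The forcing language used for the consistency statement is the one of
`Pool.Agent.Helper669.Forcing`; `MartinHolds P Om1` is the translation of `MartinFor Om1` into this
language (both in `Pool.Agent.W684.FM.Defs`), which is equivalent to Martin's axiom for `ℵ₁` dense
sets.
-/

set_option autoImplicit false

namespace Pool.Agent.Results.MP_2f4f34_gt.CountableGroups

open Cardinal Pool.Agent.W684 Pool.Agent.Helper669.Forcing Pool.Agent.W684.FM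
  Pool.Agent.TH572.FU

/-- Martin's axiom for `ℵ₁` dense sets implies its restriction to `σ`-centred preordered sets. -/
theorem maCentered (h : MartinAxiomAleph1) : MACentered ℵ₁ := by
  intro P _ _ hP 𝒟 h𝒟 hd
  obtain ⟨c, hc⟩ := hP
  refine h P ?_ 𝒟 h𝒟 hd
  intro A hA
  rw [Set.countable_iff_exists_injOn]
  refine ⟨c, fun p hp q hq hpq => ?_⟩
  by_contra hne
  classical
  obtain ⟨r, hr⟩ := hc {p, q} ⟨p, by simp⟩ (by
    intro a ha b hb
    simp only [Finset.mem_insert, Finset.mem_singleton] at ha hb
    rcases ha with rfl | rfl <;> rcases hb with rfl | rfl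
    · rfl
    · exact hpq
    · exact hpq.symm
    · rfl)
  exact hA p hp q hq hne ⟨r, hr p (by simp), hr q (by simp)⟩

/-- (1) For every infinite cardinal `κ` such that Martin's axiom for `σ`-centred preordered sets
and `κ` dense sets holds (`κ < 𝔭`), every non-discrete Hausdorff Fréchet-Urysohn group topology on
a countable group is generated by some set of sequences, but by no set of at most `κ` sequences:
`κ < r_s ≤ 𝔠`. (2) Under the continuum hypothesis there is a countable Fréchet-Urysohn group of
sequence-rank `ℵ₁`. (3) Under Martin's axiom for `ℵ₁` dense sets there is no countable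
Fréchet-Urysohn group of sequence-rank `ℵ₁`. (4) There is a preordered set of forcing conditions
such that every condition forces that the cardinals of the ground model are cardinals, that `ω₁`
is preserved and that Martin's axiom for `ℵ₁` dense sets holds. -/
theorem result :
    (∀ κ : Cardinal.{0}, ℵ₀ ≤ κ → MACentered κ →
      ∀ (G : Type) [Group G] [Countable G] (τ : TopologicalSpace G),
        @IsTopologicalGroup G τ _ → @T2Space G τ → @FrechetUrysohnSpace G τ →
        ¬ @DiscreteTopology G τ → IsSGroup τ ∧ κ < rs τ ∧ rs τ ≤ 𝔠) ∧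
    ((ℵ₁ : Cardinal.{0}) = 𝔠 → ∃ (G : Type) (_ : Group G) (_ : Countable G) (τ : TopologicalSpace G),
      @IsTopologicalGroup G τ _ ∧ @T2Space G τ ∧ @FrechetUrysohnSpace G τ ∧
        IsSGroup τ ∧ rs τ = ℵ₁) ∧
    (MartinAxiomAleph1 → ¬ ∃ (G : Type) (_ : Group G) (_ : Countable G) (τ : TopologicalSpace G),
      @IsTopologicalGroup G τ _ ∧ @T2Space G τ ∧ @FrechetUrysohnSpace G τ ∧ rs τ = ℵ₁) ∧
    ((MartinFor Om1 ↔ MartinAxiomAleph1) ∧
      ∃ (P : Type) (_ : Preorder P), Nonempty P ∧ ∀ p : P,
        p ∈ CardinalsPreserved.{0, 0} P ∧ p ∈ OmegaOnePreserved P ∧ p ∈ MartinHolds P Om1) := by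
  have hs : ∀ (G : Type) [Group G] (τ : TopologicalSpace G), @IsTopologicalGroup G τ _ →
      @T2Space G τ → @FrechetUrysohnSpace G τ → IsSGroup τ := by
    intro G _ τ h1 h2 h3
    exact ⟨_, isTau_of_sequential h1 h2 (@FrechetUrysohnSpace.to_sequentialSpace G τ h3)⟩
  have hmain : ∀ κ : Cardinal.{0}, ℵ₀ ≤ κ → MACentered κ →
      ∀ (G : Type) [Group G] [Countable G] (τ : TopologicalSpace G),
        @IsTopologicalGroup G τ _ → @T2Space G τ → @FrechetUrysohnSpace G τ →
        ¬ @DiscreteTopology G τ → IsSGroup τ ∧ κ < rs τ ∧ rs τ ≤ 𝔠 := by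
    intro κ hκ hMA G _ _ τ h1 h2 h3 h4
    have h5 := hs G τ h1 h2 h3
    exact ⟨h5, lt_rs h5 h3 h4 hκ hMA, rs_le_continuum h5⟩
  refine ⟨hmain, ?_, ?_, martinFor_om1_iff, exists_forcing Om1⟩
  · intro hCH
    have hnd : ¬ DiscreteTopology (Multiplicative ℚ) := by
      intro h
      have h1 : DiscreteTopology ℚ := h
      have h2 : (nhdsWithin (0 : ℚ) {0}ᶜ).NeBot := inferInstance
      rw [(discreteTopology_iff_nhds_ne.1 h1) 0] at h2
      exact h2.ne rfl
    have hg : IsTopologicalGroup (Multiplicative ℚ) := inferInstance
    have ht : T2Space (Multiplicative ℚ) := inferInstanceAs (T2Space ℚ)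
    have hf : FrechetUrysohnSpace (Multiplicative ℚ) := inferInstanceAs (FrechetUrysohnSpace ℚ)
    have hc : Countable (Multiplicative ℚ) := inferInstanceAs (Countable ℚ)
    obtain ⟨h5, h6, h7⟩ := hmain ℵ₀ le_rfl maCentered_aleph0 (Multiplicative ℚ) _ hg ht hf hnd
    refine ⟨Multiplicative ℚ, inferInstance, hc, inferInstance, hg, ht, hf, h5, ?_⟩
    refine le_antisymm (h7.trans hCH.ge) ?_
    rw [← Cardinal.succ_aleph0]
    exact Order.succ_le_of_lt h6
  · rintro hMA ⟨G, _, _, τ, h1, h2, h3, h4⟩
    by_cases hd : @DiscreteTopology G τ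
    · have h5 := rs_discrete hd
      rw [h4] at h5
      exact absurd (h5.trans_lt (one_lt_aleph0.trans Cardinal.aleph0_lt_aleph_one)) (lt_irrefl _)
    · have h5 := (hmain ℵ₁ (Cardinal.aleph0_lt_aleph_one.le) (maCentered hMA) G τ h1 h2 h3 hd).2.1
      rw [h4] at h5
      exact absurd h5 (lt_irrefl _)

end Pool.Agent.Results.MP_2f4f34_gt.CountableGroups
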